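import Mathlib
import Pool.Agent.H734R2.SP.Part2
import Pool.Agent.H734R2.SP.Bridge

set_option autoImplicit false

open scoped Topology
open Filter

namespace Pool.Agent.Results.MP_1a4606_ag.GeneratedValues

/-- `B` is a polynomial automorphism of real 3-space fixing the origin, with inverse `A`. -/
def IsCoordChange (A B : Fin 3 → MvPolynomial (Fin 3) ℝ) : Prop :=
  (∀ i, MvPolynomial.bind₁ A (B i) = MvPolynomial.X i) ∧
    (∀ i, MvPolynomial.bind₁ B (A i) = MvPolynomial.X i) ∧
    ∀ i, MvPolynomial.eval (0 : Fin 3 → ℝ) (B i) = 0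

/-- `u` has order `n` at `0+`: `u t / t ^ n` has a nonzero limit as `t → 0+`. -/
def HasOrder (u : ℝ → ℝ) (n : ℕ) : Prop :=
  ∃ a : ℝ, a ≠ 0 ∧ Tendsto (fun t => u t / t ^ n) (𝓝[>] 0) (𝓝 a)

/-- After some polynomial automorphism `B` fixing the origin, the three coordinates of the arc have
(finite) orders `w i`, and every order `j ≤ ord f(P)` of a polynomial along the arc is a sum
`∑ m i * w i` with natural numbers `m i`, i.e. the order of a monomial in the new coordinates. -/
def ValuesGenerated (f : MvPolynomial (Fin 3) ℝ) (P : ℝ → Fin 3 → ℝ) : Prop :=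
  ∃ A B : Fin 3 → MvPolynomial (Fin 3) ℝ, IsCoordChange A B ∧ ∃ w : Fin 3 → ℕ,
    (∀ i, HasOrder (fun t => MvPolynomial.eval (P t) (B i)) (w i)) ∧
    ∀ k, HasOrder (fun t => MvPolynomial.eval (P t) f) k →
      ∀ (g : MvPolynomial (Fin 3) ℝ) (j : ℕ), j ≤ k →
        HasOrder (fun t => MvPolynomial.eval (P t) g) j → ∃ m : Fin 3 → ℕ, j = ∑ i, m i * w i

open Pool.Agent.H734R2.SP in
theorem values_join (f : MvPolynomial (Fin 3) ℝ) (P Q : ℝ → Fin 3 → ℝ) (h : NS f P Q)
    (hS : ValuesGenerated f P) : Join f P Q := by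
  obtain ⟨A, B, ⟨_, hAB, hB0⟩, w, hw, hv⟩ := hS
  have hab : ∀ x : Pt, (fun i => ev (fun j => ev x (B j)) (A i)) = x := by
    intro x
    funext i
    have h1 := congrArg (MvPolynomial.eval x) (hAB i)
    rw [MvPolynomial.eval_X] at h1
    rw [← h1]
    simp only [ev, MvPolynomial.eval, MvPolynomial.eval₂Hom_bind₁]
  obtain ⟨hNS, hJ⟩ := t_AUT t_EVA A B hab hB0 f P Q h
  apply hJ
  obtain ⟨k, F, hF, hk⟩ := exists_order f P Q h
  have hev : ∀ t, ev (fun i => ev (P t) (B i)) (MvPolynomial.bind₁ A f) = ev (P t) f := by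
    intro t
    have hx := hab (P t)
    have : ev (fun i => ev (P t) (B i)) (MvPolynomial.bind₁ A f) =
        ev (fun i => ev (fun j => ev (P t) (B j)) (A i)) f := by
      simp only [ev, MvPolynomial.eval, MvPolynomial.eval₂Hom_bind₁]
    rw [this, hx]
  choose c hc0 hc using hw
  have hw1 : ∀ i, 1 ≤ w i := by
    intro i
    by_contra hcon
    have hwi : w i = 0 := by omega
    have h1 := hc i
    simp only [hwi, pow_zero, div_one] at h1
    have h2 : Tendsto (fun t => MvPolynomial.eval (P t) (B i)) (𝓝[>] 0) (𝓝 0) := by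
      have h3 := (t_EVA P h.hP (B i)).continuousAt.tendsto
      have h4 : ev (P 0) (B i) = 0 := by rw [h.hP.2]; exact hB0 i
      simp only [h4] at h3
      exact h3.mono_left nhdsWithin_le_nhds
    exact hc0 i (tendsto_nhds_unique h1 h2)
  have hk' : Tendsto (fun t => ev ((fun t i => ev (P t) (B i)) t) (MvPolynomial.bind₁ A f) / t ^ k)
      (𝓝[>] (0 : ℝ)) (𝓝 F) := by
    refine hk.congr fun t => ?_
    rw [← hev t]
  refine general_case _ _ _ hNS w c k F hw1 hc0 hc hF hk' (Or.inl ?_)
  intro g j a hjk ha hg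
  have hgo : HasOrder (fun t => MvPolynomial.eval (P t) (MvPolynomial.bind₁ B g)) j := by
    refine ⟨a, ha, hg.congr fun t => ?_⟩
    congr 1
    simp only [ev, MvPolynomial.eval, MvPolynomial.eval₂Hom_bind₁]
  obtain ⟨m, hm⟩ := hv k ⟨F, hF.ne', hk⟩ _ j hjk hgo
  refine ⟨Finsupp.equivFunOnFinite.symm m, ?_⟩
  rw [hm]
  simp only [wt, Finsupp.equivFunOnFinite_symm_apply_apply]
  exact Finset.sum_congr rfl fun i _ => by ring

open Pool.Agent.H734R2.SP in
/-- An admissible triple `(f, a/b, c/d)` has a separating polynomial if, for one of the two arcs, the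
orders up to that of `f` are generated by the orders of (suitable) coordinates. -/
theorem result :
    ∀ (f : MvPolynomial (Fin 3) ℝ) (a c : Fin 3 → Polynomial ℝ) (b d : Polynomial ℝ),
    Irreducible f → MvPolynomial.eval (0 : Fin 3 → ℝ) f = 0 →
    b.eval 0 ≠ 0 → d.eval 0 ≠ 0 →
    (∀ i, (a i).eval 0 = 0) → (∀ i, (c i).eval 0 = 0) →
    (∃ ε > (0 : ℝ), ∀ s ∈ Set.Ioo (0 : ℝ) ε, ∀ t ∈ Set.Ioo (0 : ℝ) ε,
       0 < MvPolynomial.eval (fun i => (a i).eval s / b.eval s) f ∧
       0 < MvPolynomial.eval (fun i => (c i).eval t / d.eval t) f ∧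
       connectedComponentIn {x : Fin 3 → ℝ | 0 < MvPolynomial.eval x f}
           (fun i => (a i).eval s / b.eval s) ≠
         connectedComponentIn {x : Fin 3 → ℝ | 0 < MvPolynomial.eval x f}
           (fun i => (c i).eval t / d.eval t)) →
    (ValuesGenerated f (fun t i => (a i).eval t / b.eval t) ∨
      ValuesGenerated f (fun t i => (c i).eval t / d.eval t)) →
    ∃ g : MvPolynomial (Fin 3) ℝ, ∃ ε > (0 : ℝ), ∀ t ∈ Set.Ioo (0 : ℝ) ε,
       MvPolynomial.eval (fun i => (a i).eval t / b.eval t) f ≤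
         MvPolynomial.eval (fun i => (a i).eval t / b.eval t) g ∧
       MvPolynomial.eval (fun i => (c i).eval t / d.eval t) g ≤ 0 := by
  intro f a c b d _ hf hb hd ha hc hcomp hS
  refine separator_of_join f (fun t i => (a i).eval t / b.eval t)
    (fun t i => (c i).eval t / d.eval t) (arc_rational a b hb ha) (arc_rational c d hd hc) hf
    hcomp ?_
  intro hns
  rcases hS with h | h
  · exact values_join f _ _ hns h
  · exact (values_join f _ _ hns.symm h).symm

end Pool.Agent.Results.MP_1a4606_ag.GeneratedValues
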