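import Mathlib
import Pool.Agent.H734R2.SP.Mult

set_option autoImplicit false

open scoped Topology
open Filter

namespace Pool.Agent.Results.MP_1a4606_ag.MultiplicityThree

open Pool.Agent.H734R2.SP in
/-- An admissible triple `(f, a/b, c/d)` has a separating polynomial if one of the two rational arcs
has multiplicity at most three at the origin, i.e. some numerator is not divisible by `X ^ 4`. -/
theorem result :
    ∀ (f : MvPolynomial (Fin 3) ℝ) (a c : Fin 3 → Polynomial ℝ) (b d : Polynomial ℝ),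
    Irreducible f → MvPolynomial.eval (0 : Fin 3 → ℝ) f = 0 →
    b.eval 0 ≠ 0 → d.eval 0 ≠ 0 →
    (∀ i, (a i).eval 0 = 0) → (∀ i, (c i).eval 0 = 0) →
    (∃ ε > (0 : ℝ), ∀ s ∈ Set.Ioo (0 : ℝ) ε, ∀ t ∈ Set.Ioo (0 : ℝ) ε,
       0 < MvPolynomial.eval (fun i => (a i).eval s / b.eval s) f ∧
       0 < MvPolynomial.eval (fun i => (c i).eval t / d.eval t) f ∧
       connectedComponentIn {x : Fin 3 → ℝ | 0 < MvPolynomial.eval x f}
           (fun i => (a i).eval s / b.eval s) ≠
         connectedComponentIn {x : Fin 3 → ℝ | 0 < MvPolynomial.eval x f}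
           (fun i => (c i).eval t / d.eval t)) →
    ((∃ i, ¬ (Polynomial.X : Polynomial ℝ) ^ 4 ∣ a i) ∨
      (∃ i, ¬ (Polynomial.X : Polynomial ℝ) ^ 4 ∣ c i)) →
    ∃ g : MvPolynomial (Fin 3) ℝ, ∃ ε > (0 : ℝ), ∀ t ∈ Set.Ioo (0 : ℝ) ε,
       MvPolynomial.eval (fun i => (a i).eval t / b.eval t) f ≤
         MvPolynomial.eval (fun i => (a i).eval t / b.eval t) g ∧
       MvPolynomial.eval (fun i => (c i).eval t / d.eval t) g ≤ 0 := by
  intro f a c b d _ hf hb hd ha hc hcomp hS
  refine separator_of_join f (fun t i => (a i).eval t / b.eval t)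
    (fun t i => (c i).eval t / d.eval t) (arc_rational a b hb ha) (arc_rational c d hd hc) hf
    hcomp ?_
  intro hns
  rcases hS with ⟨i, h⟩ | ⟨i, h⟩
  · exact mult3_case f _ _ hns (lowMult3_of_rational a b hb ha i h)
  · exact (mult3_case f _ _ hns.symm (lowMult3_of_rational c d hd hc i h)).symm

end Pool.Agent.Results.MP_1a4606_ag.MultiplicityThree
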