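import Mathlib
import Pool.Agent.H734R2.SP.Bridge
import Pool.Agent.H734R2.SP.Part6

set_option autoImplicit false

open scoped Topology
open Filter

namespace Pool.Agent.Results.MP_1a4606_ag.SliceShape

/-- `B` is a polynomial automorphism of real 3-space fixing the origin, with inverse `A`. -/
def IsCoordChange (A B : Fin 3 → MvPolynomial (Fin 3) ℝ) : Prop :=
  (∀ i, MvPolynomial.bind₁ A (B i) = MvPolynomial.X i) ∧
    (∀ i, MvPolynomial.bind₁ B (A i) = MvPolynomial.X i) ∧
    ∀ i, MvPolynomial.eval (0 : Fin 3 → ℝ) (B i) = 0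

/-- In some polynomial coordinates `x 0, x 1, x 2` of real 3-space centred at the origin, `f` is, on
a cube around the origin and as a function of `x 2`, convex, or nondecreasing, or nondecreasing for
`x 2 < 0` and nonincreasing for `x 2 > 0` (expressed by the first two derivatives in `x 2`). -/
def SimpleSlices (f : MvPolynomial (Fin 3) ℝ) : Prop :=
  ∃ A B : Fin 3 → MvPolynomial (Fin 3) ℝ, IsCoordChange A B ∧ ∃ δ > (0 : ℝ),
    ((∀ x : Fin 3 → ℝ, (∀ i, |x i| < δ) → 0 ≤ MvPolynomial.eval x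
        (MvPolynomial.pderiv 2 (MvPolynomial.pderiv 2 (MvPolynomial.bind₁ A f)))) ∨
      (∀ x : Fin 3 → ℝ, (∀ i, |x i| < δ) → 0 ≤ MvPolynomial.eval x
        (MvPolynomial.pderiv 2 (MvPolynomial.bind₁ A f))) ∨
      (∀ x : Fin 3 → ℝ, (∀ i, |x i| < δ) → x 2 * MvPolynomial.eval x
        (MvPolynomial.pderiv 2 (MvPolynomial.bind₁ A f)) ≤ 0))

theorem cube_vec {δ x y z : ℝ} (hδ : 0 < δ) (hx : |x| ≤ δ / 2) (hy : |y| ≤ δ / 2)
    (hz : |z| ≤ δ / 2) : ∀ i, |(![x, y, z] : Fin 3 → ℝ) i| < δ := by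
  intro i
  fin_cases i
  · exact hx.trans_lt (by linarith)
  · exact hy.trans_lt (by linarith)
  · exact hz.trans_lt (by linarith)

open Pool.Agent.H734R2.SP in
theorem slices_join (f : MvPolynomial (Fin 3) ℝ) (P Q : ℝ → Fin 3 → ℝ) (h : NS f P Q)
    (hS : SimpleSlices f) : Join f P Q := by
  obtain ⟨A, B, ⟨_, hAB, hB0⟩, δ, hδ, hs⟩ := hS
  have hab : ∀ x : Pt, (fun i => ev (fun j => ev x (B j)) (A i)) = x := by
    intro x
    funext i
    have h1 := congrArg (MvPolynomial.eval x) (hAB i)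
    rw [MvPolynomial.eval_X] at h1
    rw [← h1]
    simp only [ev, MvPolynomial.eval, MvPolynomial.eval₂Hom_bind₁]
  obtain ⟨hNS, hJ⟩ := t_AUT t_EVA A B hab hB0 f P Q h
  apply hJ
  have hδ2 : 0 < δ / 2 := by linarith
  rcases hs with hs | hs | hs
  · apply convex_case _ _ _ hNS
    rw [Metric.eventually_nhds_iff]
    refine ⟨δ, hδ, fun x hx => hs x fun i => ?_⟩
    have h1 := (dist_pi_lt_iff hδ).1 hx i
    simpa [Real.dist_eq] using h1
  · exact mono_case _ _ _ hNS (δ / 2) hδ2 fun x y z hx hy hz => hs _ (cube_vec hδ hx hy hz)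
  · exact ridge_case _ _ _ hNS (δ / 2) hδ2 fun x y z hx hy hz => hs _ (cube_vec hδ hx hy hz)

open Pool.Agent.H734R2.SP in
/-- An admissible triple `(f, a/b, c/d)` has a separating polynomial if, in some polynomial
coordinates, `f` is convex, monotone or unimodal in the last coordinate near the origin. -/
theorem result :
    ∀ (f : MvPolynomial (Fin 3) ℝ) (a c : Fin 3 → Polynomial ℝ) (b d : Polynomial ℝ),
    Irreducible f → MvPolynomial.eval (0 : Fin 3 → ℝ) f = 0 →
    b.eval 0 ≠ 0 → d.eval 0 ≠ 0 →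
    (∀ i, (a i).eval 0 = 0) → (∀ i, (c i).eval 0 = 0) →
    (∃ ε > (0 : ℝ), ∀ s ∈ Set.Ioo (0 : ℝ) ε, ∀ t ∈ Set.Ioo (0 : ℝ) ε,
       0 < MvPolynomial.eval (fun i => (a i).eval s / b.eval s) f ∧
       0 < MvPolynomial.eval (fun i => (c i).eval t / d.eval t) f ∧
       connectedComponentIn {x : Fin 3 → ℝ | 0 < MvPolynomial.eval x f}
           (fun i => (a i).eval s / b.eval s) ≠
         connectedComponentIn {x : Fin 3 → ℝ | 0 < MvPolynomial.eval x f}
           (fun i => (c i).eval t / d.eval t)) →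
    SimpleSlices f →
    ∃ g : MvPolynomial (Fin 3) ℝ, ∃ ε > (0 : ℝ), ∀ t ∈ Set.Ioo (0 : ℝ) ε,
       MvPolynomial.eval (fun i => (a i).eval t / b.eval t) f ≤
         MvPolynomial.eval (fun i => (a i).eval t / b.eval t) g ∧
       MvPolynomial.eval (fun i => (c i).eval t / d.eval t) g ≤ 0 := by
  intro f a c b d _ hf hb hd ha hc hcomp hS
  refine separator_of_join f (fun t i => (a i).eval t / b.eval t)
    (fun t i => (c i).eval t / d.eval t) (arc_rational a b hb ha) (arc_rational c d hd hc) hf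
    hcomp ?_
  intro hns
  exact slices_join f _ _ hns hS

end Pool.Agent.Results.MP_1a4606_ag.SliceShape
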